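import Pool.Agent.Helper18.OneArm.Gap

/-! The axioms of a form with weight `w` for every loop around the marked gap; the constant form (`w = 1`)
and the one-arm form `h0` (`w = 0`). -/

namespace OneArm
open IP IPC Finset

/-- axioms of a form with loop weight `w` around the marked gap -/
structure OAForm (w : ℝ) (f : ℕ → St → St → ℝ) : Prop where
  zero : ∀ σ ∈ IPC.W 0, ∀ τ ∈ IPC.W 0, f 0 σ τ = 1
  es : ∀ L i, i + 1 < L → ∀ v ∈ Sup (IPC.W L ∩ IPC.NC L), ∀ v' ∈ Sup (IPC.W L ∩ IPC.NC L),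
    bil (f L) (Es i v) v' = bil (f L) v (Es i v')
  ins : ∀ L, ∀ v ∈ Sup (IPC.W L), ∀ v' ∈ Sup (IPC.W L),
    bil (f (L + 2)) (IPC.In 0 v) (IPC.In 0 v') = bil (f L) v v'
  wrap : ∀ L, ∀ v ∈ Sup (IPC.W L), ∀ v' ∈ Sup (IPC.W L),
    bil (f (L + 2)) (IPC.Rel (rtn (L + 2)).symm (IPC.In 0 v)) (IPC.Rel (rtn (L + 2)).symm (IPC.In 0 v')) =
      w * bil (f L) v v'

theorem OAForm_one : OAForm 1 (fun _ _ _ => 1) where
  zero := fun _ _ _ _ => rfl
  es := by
    intro L i _ v _ v' _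
    rw [bil_one, bil_one]
    unfold Es
    rw [tot_G, tot_G]
  ins := by
    intro L v _ v' _
    rw [bil_one, bil_one, IPC.tot_In, IPC.tot_In]
  wrap := by
    intro L v _ v' _
    rw [bil_one, bil_one, IPC.tot_Rel, IPC.tot_Rel, IPC.tot_In, IPC.tot_In, one_mul]

theorem OAForm_h0 : OAForm 0 h0 where
  zero := by
    intro σ _ τ _
    unfold h0
    rw [if_pos]
    exact (gL 0 σ ⊔ gL 0 τ).refl 0
  es := by
    intro L i h v hv v' hv'
    exact bil_h0_Es h hv hv'
  ins := by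
    intro L v hv v' hv'
    exact bil_h0_In L hv hv'
  wrap := by
    intro L v hv v' hv'
    rw [bil_h0_wrap L hv hv', zero_mul]

end OneArm
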